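import Pool.Agent.Helper82.SU.NLO

namespace Pool.Agent.Helper37.SU

open Finset

theorem st_NHI : ST_NHI := by
  intro b d γ v q hb hγ hv hvq
  have hb0 : (0 : ℝ) < b := by positivity
  have hb1 : (1 : ℝ) < b := by exact_mod_cast (show 1 < b by omega)
  have hv0 : 0 < v := by linarith
  have hq0 : 0 < q := by linarith
  set δ : ℝ := γ + 1 / q with hδ
  have hδ0 : 0 < δ := by positivity
  obtain ⟨A, hA0, hA⟩ := nlo_geo d ((b : ℝ) ^ (-γ)) (by positivity) (Real.rpow_lt_one_of_one_lt_of_neg hb1 (by linarith))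
  obtain ⟨B, hB0, hB⟩ := nlo_geo 0 ((b : ℝ) ^ (-δ)) (by positivity) (Real.rpow_lt_one_of_one_lt_of_neg hb1 (by linarith))
  refine ⟨(b : ℝ) ^ (2 * (d : ℝ) * γ) * A * B, by positivity, fun n L L' => ?_⟩
  have inner : ∀ l ∈ Ioc n L', ∑ l' ∈ (range (L + 1)).filter (fun l' => l ≤ l' + 2 * d),
      (b : ℝ) ^ (-((l : ℝ) / q)) * (b : ℝ) ^ (-((l' : ℝ) * γ)) *
      ((1 + ((l' - l : ℕ) : ℝ)) ^ d * (b : ℝ) ^ (-(((l' - l : ℕ) : ℝ) / v))) ≤
      ((b : ℝ) ^ (2 * (d : ℝ) * γ) * A * (b : ℝ) ^ (-((n : ℝ) * δ))) *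
        ((1 + ((l - n : ℕ) : ℝ)) ^ 0 * ((b : ℝ) ^ (-δ)) ^ (l - n)) := by
    intro l hl
    rw [mem_Ioc] at hl
    obtain ⟨j, hj⟩ := Nat.exists_eq_add_of_lt hl.1
    have e1 : l - n = j + 1 := by omega
    calc ∑ l' ∈ (range (L + 1)).filter (fun l' => l ≤ l' + 2 * d),
      (b : ℝ) ^ (-((l : ℝ) / q)) * (b : ℝ) ^ (-((l' : ℝ) * γ)) *
      ((1 + ((l' - l : ℕ) : ℝ)) ^ d * (b : ℝ) ^ (-(((l' - l : ℕ) : ℝ) / v)))
        ≤ ∑ l' ∈ (range (L + 1)).filter (fun l' => l ≤ l' + 2 * d), ((b : ℝ) ^ (2 * (d : ℝ) * γ) * (b : ℝ) ^ (-((l : ℝ) * δ))) *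
          ((1 + ((l' + 2 * d - l : ℕ) : ℝ)) ^ d * ((b : ℝ) ^ (-γ)) ^ (l' + 2 * d - l)) := by
          refine sum_le_sum fun l' hl' => ?_
          rw [mem_filter, mem_range] at hl'
          obtain ⟨k, hk⟩ := Nat.exists_eq_add_of_le hl'.2
          have e2 : l' + 2 * d - l = k := by omega
          rw [e2]
          have hk' : (l' : ℝ) = l + k - 2 * d := by
            have : ((l' + 2 * d : ℕ) : ℝ) = ((l + k : ℕ) : ℝ) := by rw [hk]
            push_cast at this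
            linarith
          have hp : (1 + ((l' - l : ℕ) : ℝ)) ^ d ≤ (1 + (k : ℝ)) ^ d := by
            refine pow_le_pow_left₀ (by positivity) ?_ d
            have : l' - l ≤ k := by omega
            have : ((l' - l : ℕ) : ℝ) ≤ k := by exact_mod_cast this
            linarith
          have hr : (b : ℝ) ^ (-((l : ℝ) / q)) * (b : ℝ) ^ (-((l' : ℝ) * γ)) * (b : ℝ) ^ (-(((l' - l : ℕ) : ℝ) / v)) ≤
              (b : ℝ) ^ (2 * (d : ℝ) * γ) * (b : ℝ) ^ (-((l : ℝ) * δ)) * ((b : ℝ) ^ (-γ)) ^ k := by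
            rw [← Real.rpow_natCast ((b : ℝ) ^ (-γ)), ← Real.rpow_mul hb0.le, ← Real.rpow_add hb0, ← Real.rpow_add hb0,
              ← Real.rpow_add hb0, ← Real.rpow_add hb0]
            refine Real.rpow_le_rpow_of_exponent_le hb1.le ?_
            rw [hk', hδ]
            have hi0 : (0 : ℝ) ≤ ((l' - l : ℕ) : ℝ) / v := by positivity
            have : -((l : ℝ) / q) + -(((l : ℝ) + k - 2 * d) * γ) = 2 * d * γ + -((l : ℝ) * (γ + 1 / q)) + -γ * k := by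
              ring
            linarith
          calc (b : ℝ) ^ (-((l : ℝ) / q)) * (b : ℝ) ^ (-((l' : ℝ) * γ)) *
              ((1 + ((l' - l : ℕ) : ℝ)) ^ d * (b : ℝ) ^ (-(((l' - l : ℕ) : ℝ) / v)))
              = (1 + ((l' - l : ℕ) : ℝ)) ^ d * ((b : ℝ) ^ (-((l : ℝ) / q)) * (b : ℝ) ^ (-((l' : ℝ) * γ)) *
                (b : ℝ) ^ (-(((l' - l : ℕ) : ℝ) / v))) := by ring
            _ ≤ (1 + (k : ℝ)) ^ d * ((b : ℝ) ^ (2 * (d : ℝ) * γ) * (b : ℝ) ^ (-((l : ℝ) * δ)) * ((b : ℝ) ^ (-γ)) ^ k) :=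
                mul_le_mul hp hr (by positivity) (by positivity)
            _ = _ := by ring
      _ = ((b : ℝ) ^ (2 * (d : ℝ) * γ) * (b : ℝ) ^ (-((l : ℝ) * δ))) *
          ∑ l' ∈ (range (L + 1)).filter (fun l' => l ≤ l' + 2 * d),
          ((1 + ((l' + 2 * d - l : ℕ) : ℝ)) ^ d * ((b : ℝ) ^ (-γ)) ^ (l' + 2 * d - l)) := by rw [mul_sum]
      _ ≤ ((b : ℝ) ^ (2 * (d : ℝ) * γ) * (b : ℝ) ^ (-((l : ℝ) * δ))) * A := by
          refine mul_le_mul_of_nonneg_left ?_ (by positivity)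
          refine nlo_reidx (fun i : ℕ => (1 + (i : ℝ)) ^ d * ((b : ℝ) ^ (-γ)) ^ i) A hA _ (fun l' => l' + 2 * d - l) ?_
          intro x hx y hy hxy
          simp only [coe_filter, mem_range, Set.mem_setOf_eq] at hx hy
          simp only at hxy
          omega
      _ = _ := by
          rw [e1, pow_zero, one_mul, ← Real.rpow_natCast ((b : ℝ) ^ (-δ)), ← Real.rpow_mul hb0.le]
          have : (b : ℝ) ^ (-((l : ℝ) * δ)) = (b : ℝ) ^ (-((n : ℝ) * δ)) * (b : ℝ) ^ (-δ * ((j + 1 : ℕ) : ℝ)) := by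
            rw [← Real.rpow_add hb0]
            congr 1
            rw [hj]
            push_cast
            ring
          rw [this]
          ring
  calc ∑ l ∈ Ioc n L', ∑ l' ∈ (range (L + 1)).filter (fun l' => l ≤ l' + 2 * d),
      (b : ℝ) ^ (-((l : ℝ) / q)) * (b : ℝ) ^ (-((l' : ℝ) * γ)) *
      ((1 + ((l' - l : ℕ) : ℝ)) ^ d * (b : ℝ) ^ (-(((l' - l : ℕ) : ℝ) / v)))
      ≤ ∑ l ∈ Ioc n L', ((b : ℝ) ^ (2 * (d : ℝ) * γ) * A * (b : ℝ) ^ (-((n : ℝ) * δ))) *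
        ((1 + ((l - n : ℕ) : ℝ)) ^ 0 * ((b : ℝ) ^ (-δ)) ^ (l - n)) := sum_le_sum inner
    _ = ((b : ℝ) ^ (2 * (d : ℝ) * γ) * A * (b : ℝ) ^ (-((n : ℝ) * δ))) *
        ∑ l ∈ Ioc n L', ((1 + ((l - n : ℕ) : ℝ)) ^ 0 * ((b : ℝ) ^ (-δ)) ^ (l - n)) := by rw [mul_sum]
    _ ≤ ((b : ℝ) ^ (2 * (d : ℝ) * γ) * A * (b : ℝ) ^ (-((n : ℝ) * δ))) * B := by
        refine mul_le_mul_of_nonneg_left ?_ (by positivity)
        refine nlo_reidx (fun i : ℕ => (1 + (i : ℝ)) ^ 0 * ((b : ℝ) ^ (-δ)) ^ i) B hB _ (fun l => l - n) ?_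
        intro x hx y hy hxy
        simp only [coe_Ioc, Set.mem_Ioc] at hx hy
        simp only at hxy
        omega
    _ = _ := by ring

end Pool.Agent.Helper37.SU
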