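import Pool.Agent.Helper37.SU.Stmts

namespace Pool.Agent.Helper37.SU

open Finset

/-- uniform bound of the finite sums of `(1 + i) ^ d ρ ^ i` -/
theorem nlo_geo (d : ℕ) (ρ : ℝ) (h0 : 0 < ρ) (h1 : ρ < 1) :
    ∃ A : ℝ, 0 < A ∧ ∀ s : Finset ℕ, ∑ i ∈ s, (1 + (i : ℝ)) ^ d * ρ ^ i ≤ A := by
  have hs0 : Summable (fun i : ℕ => (i : ℝ) ^ d * ρ ^ i) :=
    summable_pow_mul_geometric_of_norm_lt_one d (by rw [Real.norm_eq_abs, abs_of_pos h0]; exact h1)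
  have hs1 : Summable (fun i : ℕ => ((i + 1 : ℕ) : ℝ) ^ d * ρ ^ (i + 1)) :=
    (summable_nat_add_iff (f := fun i : ℕ => (i : ℝ) ^ d * ρ ^ i) 1).2 hs0
  have hs : Summable (fun i : ℕ => (1 + (i : ℝ)) ^ d * ρ ^ i) := by
    have := hs1.mul_left (ρ⁻¹)
    refine this.congr (fun i => ?_)
    push_cast
    rw [pow_succ]
    field_simp
    ring
  refine ⟨∑' i : ℕ, (1 + (i : ℝ)) ^ d * ρ ^ i, ?_, fun s => ?_⟩
  · refine lt_of_lt_of_le ?_ (hs.sum_le_tsum {0} (fun i _ => by positivity))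
    simp
  · exact hs.sum_le_tsum s (fun i _ => by positivity)

theorem nlo_reidx (f : ℕ → ℝ) (A : ℝ) (hA : ∀ s : Finset ℕ, ∑ i ∈ s, f i ≤ A) (s : Finset ℕ) (g : ℕ → ℕ)
    (hg : Set.InjOn g s) : ∑ i ∈ s, f (g i) ≤ A := by
  rw [← Finset.sum_image (f := f) (g := g) hg]
  exact hA _

theorem st_NLO : ST_NLO := by
  intro b d γ v q hb hγ hv hvq
  have hb0 : (0 : ℝ) < b := by positivity
  have hb1 : (1 : ℝ) < b := by exact_mod_cast (show 1 < b by omega)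
  have hv0 : 0 < v := by linarith
  have hq0 : 0 < q := by linarith
  set δ : ℝ := 1 / v - 1 / q with hδ
  have hδ0 : 0 < δ := by
    rw [hδ, sub_pos]
    exact one_div_lt_one_div_of_lt hv0 hvq
  obtain ⟨A, hA0, hA⟩ := nlo_geo d ((b : ℝ) ^ (-γ)) (by positivity) (Real.rpow_lt_one_of_one_lt_of_neg hb1 (by linarith))
  obtain ⟨B, hB0, hB⟩ := nlo_geo d ((b : ℝ) ^ (-δ)) (by positivity) (Real.rpow_lt_one_of_one_lt_of_neg hb1 (by linarith))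
  refine ⟨A * B, by positivity, fun n₀ n₁ L hn => ?_⟩
  set M : ℝ := (1 + ((n₁ - n₀ : ℕ) : ℝ)) ^ d * (b : ℝ) ^ (-((n₁ : ℝ) * (γ + 1 / q))) *
    (b : ℝ) ^ (-(((n₁ - n₀ : ℕ) : ℝ) * δ)) with hM
  have hM0 : 0 ≤ M := by positivity
  have key : ∀ l ∈ range n₀, ∀ l' ∈ Ioc n₁ L, (b : ℝ) ^ (-((l : ℝ) / q)) * (b : ℝ) ^ (-((l' : ℝ) * γ)) *
      ((1 + ((l' - l : ℕ) : ℝ)) ^ d * (b : ℝ) ^ (-(((l' - l : ℕ) : ℝ) / v))) ≤
      M * ((1 + ((n₀ - l : ℕ) : ℝ)) ^ d * ((b : ℝ) ^ (-δ)) ^ (n₀ - l)) *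
        ((1 + ((l' - n₁ : ℕ) : ℝ)) ^ d * ((b : ℝ) ^ (-γ)) ^ (l' - n₁)) := by
    intro l hl l' hl'
    rw [mem_range] at hl
    rw [mem_Ioc] at hl'
    obtain ⟨i, hi⟩ := Nat.exists_eq_add_of_lt hl'.1
    obtain ⟨j, hj⟩ := Nat.exists_eq_add_of_lt hl
    obtain ⟨k, hk⟩ := Nat.exists_eq_add_of_le hn
    have e1 : l' - l = k + (i + 1) + (j + 1) := by omega
    have e2 : n₀ - l = j + 1 := by omega
    have e3 : l' - n₁ = i + 1 := by omega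
    have e4 : n₁ - n₀ = k := by omega
    have hM' : M = (1 + (k : ℝ)) ^ d * (b : ℝ) ^ (-((n₁ : ℝ) * (γ + 1 / q))) * (b : ℝ) ^ (-((k : ℝ) * δ)) := by
      rw [hM, e4]
    rw [e1, e2, e3, hM']
    have hp : (1 + ((k + (i + 1) + (j + 1) : ℕ) : ℝ)) ^ d ≤
        (1 + (k : ℝ)) ^ d * (1 + ((j + 1 : ℕ) : ℝ)) ^ d * (1 + ((i + 1 : ℕ) : ℝ)) ^ d := by
      rw [← mul_pow, ← mul_pow]
      refine pow_le_pow_left₀ (by positivity) ?_ d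
      push_cast
      have hk0 : (0 : ℝ) ≤ k := by positivity
      have hi0 : (0 : ℝ) ≤ i := by positivity
      have hj0 : (0 : ℝ) ≤ j := by positivity
      nlinarith [mul_nonneg hk0 hi0, mul_nonneg hk0 hj0, mul_nonneg hi0 hj0, mul_nonneg (mul_nonneg hk0 hi0) hj0]
    have hr : (b : ℝ) ^ (-((l : ℝ) / q)) * (b : ℝ) ^ (-((l' : ℝ) * γ)) *
        (b : ℝ) ^ (-(((k + (i + 1) + (j + 1) : ℕ) : ℝ) / v)) ≤
        (b : ℝ) ^ (-((n₁ : ℝ) * (γ + 1 / q))) * (b : ℝ) ^ (-((k : ℝ) * δ)) * ((b : ℝ) ^ (-δ)) ^ (j + 1) *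
          ((b : ℝ) ^ (-γ)) ^ (i + 1) := by
      rw [← Real.rpow_natCast ((b : ℝ) ^ (-δ)), ← Real.rpow_natCast ((b : ℝ) ^ (-γ)), ← Real.rpow_mul hb0.le,
        ← Real.rpow_mul hb0.le, ← Real.rpow_add hb0, ← Real.rpow_add hb0, ← Real.rpow_add hb0, ← Real.rpow_add hb0,
        ← Real.rpow_add hb0]
      refine Real.rpow_le_rpow_of_exponent_le hb1.le ?_
      have h1 : (l' : ℝ) = n₁ + i + 1 := by rw [hi]; push_cast; ring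
      have h2 : (l : ℝ) = n₀ - j - 1 := by rw [hj]; push_cast; ring
      have h3 : (n₁ : ℝ) = n₀ + k := by rw [hk]; push_cast; ring
      rw [h1, h2, h3, hδ]
      push_cast
      have hi0 : (0 : ℝ) ≤ (i + 1) / v := by positivity
      have : -(((n₀ : ℝ) - j - 1) / q) + -(((n₀ : ℝ) + k + i + 1) * γ) + -(((k : ℝ) + (i + 1) + (j + 1)) / v) =
          -(((n₀ : ℝ) + k) * (γ + 1 / q)) + -((k : ℝ) * (1 / v - 1 / q)) + -(1 / v - 1 / q) * (j + 1) +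
            -γ * (i + 1) - (i + 1) / v := by
        ring
      rw [this]
      linarith
    calc (b : ℝ) ^ (-((l : ℝ) / q)) * (b : ℝ) ^ (-((l' : ℝ) * γ)) *
        ((1 + ((k + (i + 1) + (j + 1) : ℕ) : ℝ)) ^ d * (b : ℝ) ^ (-(((k + (i + 1) + (j + 1) : ℕ) : ℝ) / v)))
        = (1 + ((k + (i + 1) + (j + 1) : ℕ) : ℝ)) ^ d * ((b : ℝ) ^ (-((l : ℝ) / q)) * (b : ℝ) ^ (-((l' : ℝ) * γ)) *
          (b : ℝ) ^ (-(((k + (i + 1) + (j + 1) : ℕ) : ℝ) / v))) := by ring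
      _ ≤ ((1 + (k : ℝ)) ^ d * (1 + ((j + 1 : ℕ) : ℝ)) ^ d * (1 + ((i + 1 : ℕ) : ℝ)) ^ d) *
          ((b : ℝ) ^ (-((n₁ : ℝ) * (γ + 1 / q))) * (b : ℝ) ^ (-((k : ℝ) * δ)) * ((b : ℝ) ^ (-δ)) ^ (j + 1) *
          ((b : ℝ) ^ (-γ)) ^ (i + 1)) := mul_le_mul hp hr (by positivity) (by positivity)
      _ = _ := by ring
  calc ∑ l ∈ range n₀, ∑ l' ∈ Ioc n₁ L, (b : ℝ) ^ (-((l : ℝ) / q)) * (b : ℝ) ^ (-((l' : ℝ) * γ)) *
      ((1 + ((l' - l : ℕ) : ℝ)) ^ d * (b : ℝ) ^ (-(((l' - l : ℕ) : ℝ) / v)))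
      ≤ ∑ l ∈ range n₀, ∑ l' ∈ Ioc n₁ L, M * ((1 + ((n₀ - l : ℕ) : ℝ)) ^ d * ((b : ℝ) ^ (-δ)) ^ (n₀ - l)) *
        ((1 + ((l' - n₁ : ℕ) : ℝ)) ^ d * ((b : ℝ) ^ (-γ)) ^ (l' - n₁)) :=
        sum_le_sum fun l hl => sum_le_sum fun l' hl' => key l hl l' hl'
    _ = M * ((∑ l ∈ range n₀, (1 + ((n₀ - l : ℕ) : ℝ)) ^ d * ((b : ℝ) ^ (-δ)) ^ (n₀ - l)) *
        ∑ l' ∈ Ioc n₁ L, (1 + ((l' - n₁ : ℕ) : ℝ)) ^ d * ((b : ℝ) ^ (-γ)) ^ (l' - n₁)) := by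
        rw [Finset.sum_mul_sum, mul_sum]
        refine sum_congr rfl fun l _ => ?_
        rw [mul_sum]
        refine sum_congr rfl fun l' _ => ?_
        ring
    _ ≤ M * (B * A) := by
        refine mul_le_mul_of_nonneg_left ?_ hM0
        refine mul_le_mul ?_ ?_ (sum_nonneg fun _ _ => by positivity) hB0.le
        · refine nlo_reidx (fun i : ℕ => (1 + (i : ℝ)) ^ d * ((b : ℝ) ^ (-δ)) ^ i) B hB (range n₀) (fun l => n₀ - l) ?_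
          intro x hx y hy hxy
          simp only [coe_range, Set.mem_Iio] at hx hy
          simp only at hxy
          omega
        · refine nlo_reidx (fun i : ℕ => (1 + (i : ℝ)) ^ d * ((b : ℝ) ^ (-γ)) ^ i) A hA (Ioc n₁ L) (fun l => l - n₁) ?_
          intro x hx y hy hxy
          simp only [coe_Ioc, Set.mem_Ioc] at hx hy
          simp only at hxy
          omega
    _ = A * B * (1 + ((n₁ - n₀ : ℕ) : ℝ)) ^ d * (b : ℝ) ^ (-((n₁ : ℝ) * (γ + 1 / q))) *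
        (b : ℝ) ^ (-(((n₁ - n₀ : ℕ) : ℝ) * δ)) := by rw [hM]; ring

end Pool.Agent.Helper37.SU
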